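import Mathlib

/-!
# Groups generated by horizontal class transpositions of small moduli

Let `M, k ≥ 3` and `L = lcm(M, k)`.  The group `G = ⟨CT_M, CT_k⟩` acts on `{0, …, L - 1}`.
Every `G`-invariant equivalence relation on this set other than equality is total (`rel_total`), so
`G` is transitive and primitive.  Let `d = gcd(M, k)`.  If `d ≥ 3`, then the commutator of `(0 1)`
in `CT_M` and `(0 2)` in `CT_k` is a 3-cycle.  If `d = 1` and `M ≥ 5`, the commutator `γ` of `(0 1)`
in `CT_M` and `(0 1)` in `CT_k` is a product of two 3-cycles, and the commutator of `γ` and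
`(-1 3)` in `CT_M` is a 3-cycle.  By the theorem of Jordan `G` contains the alternating group.  As
one of `L / M`, `L / k` is odd, `G` also contains an odd permutation.
-/

namespace Pool.Agent.Results.MP_8fd2f5_al.SmallModuli

open Equiv

/-- `π` is a horizontal class transposition `τ_{r(m),s(m)}`, `0 ≤ r < s ≤ m - 1`: it interchanges
`r + j m` and `s + j m` for every integer `j` and fixes every integer not congruent to `r` or `s`
modulo `m`. -/
def IsHCT (m : ℕ) (π : Perm ℤ) : Prop :=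
  ∃ r s : ℕ, r < s ∧ s < m ∧
    (∀ j : ℤ, π (r + j * m) = s + j * m ∧ π (s + j * m) = r + j * m) ∧
    ∀ x : ℤ, ¬ x ≡ r [ZMOD m] → ¬ x ≡ s [ZMOD m] → π x = x

/-- The group `CT_m`. -/
def CT (m : ℕ) : Subgroup (Perm ℤ) := Subgroup.closure {π | IsHCT m π}

/-- The group `CT_(k)` generated by `CT_2, …, CT_k`. -/
def CTle (k : ℕ) : Subgroup (Perm ℤ) :=
  Subgroup.closure (⋃ m ∈ Finset.Icc 2 k, (CT m : Set (Perm ℤ)))

/-- The number `N(k) = lcm(2, …, k)`. -/
def N (k : ℕ) : ℕ := (Finset.Icc 2 k).lcm id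

/-! ### Permutations of the residue classes -/

section Phi

variable {m : ℕ} [NeZero m]

/-- The residue modulo `m`. -/
def res (m : ℕ) [NeZero m] (x : ℤ) : Fin m :=
  ⟨(x % m).toNat, by
    have h1 := Int.emod_lt_of_pos x (Int.natCast_pos.2 (Nat.pos_of_ne_zero (NeZero.ne m)))
    have h2 := Int.emod_nonneg x (Int.natCast_ne_zero.2 (NeZero.ne m))
    omega⟩

theorem res_cast (x : ℤ) : ((res m x : ℕ) : ℤ) = x % m := by
  have h2 := Int.emod_nonneg x (Int.natCast_ne_zero.2 (NeZero.ne m))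
  rw [res]
  simp only
  omega

theorem decomp (x : ℤ) : x = m * (x / m) + (res m x : ℕ) := by
  rw [res_cast]
  exact (Int.mul_ediv_add_emod x m).symm

theorem res_mul_add (q : ℤ) (r : Fin m) : res m (m * q + (r : ℕ)) = r := by
  apply Fin.ext
  have h : ((res m (m * q + (r : ℕ)) : ℕ) : ℤ) = (r : ℕ) := by
    rw [res_cast, Int.mul_add_emod_self_left]
    exact Int.emod_eq_of_lt (Int.natCast_nonneg _) (by exact_mod_cast r.2)
  exact_mod_cast h

theorem div_mul_add (q : ℤ) (r : Fin m) : (m * q + (r : ℕ)) / (m : ℤ) = q := by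
  have h : (m : ℤ) ≠ 0 := Int.natCast_ne_zero.2 (NeZero.ne m)
  rw [Int.mul_add_ediv_left _ _ h]
  rw [Int.ediv_eq_zero_of_lt (Int.natCast_nonneg _) (by exact_mod_cast r.2), add_zero]

/-- The function moving the residue classes as `σ`. -/
def phiFun (σ : Perm (Fin m)) (x : ℤ) : ℤ := m * (x / m) + (σ (res m x) : ℕ)

theorem phiFun_mul (σ τ : Perm (Fin m)) (x : ℤ) : phiFun (σ * τ) x = phiFun σ (phiFun τ x) := by
  rw [phiFun, phiFun, phiFun, div_mul_add, res_mul_add]
  rfl

theorem phiFun_one (x : ℤ) : phiFun (1 : Perm (Fin m)) x = x := (decomp x).symm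

/-- The embedding of `Sym(m)` in `Sym(ℤ)` by the action on the residue classes modulo `m`. -/
def phi (m : ℕ) [NeZero m] : Perm (Fin m) →* Perm ℤ where
  toFun σ :=
    { toFun := phiFun σ
      invFun := phiFun σ⁻¹
      left_inv := fun x => by rw [← phiFun_mul, inv_mul_cancel, phiFun_one]
      right_inv := fun x => by rw [← phiFun_mul, mul_inv_cancel, phiFun_one] }
  map_one' := by ext x; exact phiFun_one x
  map_mul' σ τ := by ext x; exact phiFun_mul σ τ x

theorem phi_apply (σ : Perm (Fin m)) (x : ℤ) : phi m σ x = m * (x / m) + (σ (res m x) : ℕ) := rfl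

theorem phi_mul_add (σ : Perm (Fin m)) (q : ℤ) (r : Fin m) :
    phi m σ (m * q + (r : ℕ)) = m * q + (σ r : ℕ) := by
  rw [phi_apply, div_mul_add, res_mul_add]

theorem phi_fin (σ : Perm (Fin m)) (r : Fin m) : phi m σ (r : ℕ) = (σ r : ℕ) := by
  have := phi_mul_add σ 0 r
  simpa using this

theorem phi_injective : Function.Injective (phi m) := by
  intro σ τ h
  ext r
  have h1 := phi_fin σ r
  rw [h, phi_fin] at h1
  exact_mod_cast h1.symm

theorem isHCT_iff (π : Perm ℤ) : IsHCT m π ↔ ∃ r s : Fin m, r < s ∧ π = phi m (swap r s) := by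
  constructor
  · rintro ⟨r, s, hrs, hs, h1, h2⟩
    refine ⟨⟨r, hrs.trans hs⟩, ⟨s, hs⟩, hrs, ?_⟩
    ext x
    obtain ⟨q, t, rfl⟩ : ∃ (q : ℤ) (t : Fin m), x = m * q + (t : ℕ) := ⟨_, _, decomp x⟩
    rw [phi_mul_add]
    by_cases htr : t = ⟨r, hrs.trans hs⟩
    · subst htr
      rw [swap_apply_left]
      have := (h1 q).1
      simp only
      rw [add_comm, mul_comm, this]
      ring
    · by_cases hts : t = ⟨s, hs⟩
      · subst hts
        rw [swap_apply_right]
        have := (h1 q).2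
        simp only
        rw [add_comm, mul_comm, this]
        ring
      · rw [swap_apply_of_ne_of_ne htr hts]
        have key : ∀ a (ha : a < m), t ≠ ⟨a, ha⟩ → ¬ (m * q + ((t : ℕ) : ℤ)) ≡ a [ZMOD m] := by
          intro a ha hne hmod
          apply hne
          have e1 : ((m * q + ((t : ℕ) : ℤ)) % m) = (a : ℤ) % m := hmod
          rw [Int.mul_add_emod_self_left, Int.emod_eq_of_lt (Int.natCast_nonneg _)
            (by exact_mod_cast t.2), Int.emod_eq_of_lt (Int.natCast_nonneg _)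
            (by exact_mod_cast ha)] at e1
          exact Fin.ext (by exact_mod_cast e1)
        exact h2 _ (key r _ htr) (key s _ hts)
  · rintro ⟨r, s, hrs, rfl⟩
    refine ⟨r, s, hrs, s.2, fun j => ⟨?_, ?_⟩, ?_⟩
    · have := phi_mul_add (swap r s) j r
      rw [swap_apply_left] at this
      rw [add_comm, mul_comm, this]
      ring
    · have := phi_mul_add (swap r s) j s
      rw [swap_apply_right] at this
      rw [add_comm, mul_comm, this]
      ring
    · intro x hr hs
      have key : ∀ a : Fin m, ¬ x ≡ (a : ℕ) [ZMOD m] → res m x ≠ a := by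
        rintro a hx rfl
        apply hx
        rw [res_cast]
        exact (Int.mod_modEq x m).symm
      rw [phi_apply, swap_apply_of_ne_of_ne (key r hr) (key s hs)]
      exact (decomp x).symm

theorem CT_eq : CT m = (phi m).range := by
  have h : {π | IsHCT m π} = phi m '' {σ : Perm (Fin m) | σ.IsSwap} := by
    ext π
    simp only [Set.mem_ofPred_eq, Set.mem_image]
    rw [isHCT_iff]
    constructor
    · rintro ⟨r, s, hrs, rfl⟩
      exact ⟨swap r s, ⟨r, s, hrs.ne, rfl⟩, rfl⟩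
    · rintro ⟨_, ⟨r, s, hrs, rfl⟩, rfl⟩
      rcases lt_or_gt_of_ne hrs with h | h
      · exact ⟨r, s, h, rfl⟩
      · exact ⟨s, r, h, by rw [swap_comm]⟩
  rw [CT, h, ← MonoidHom.map_closure, Equiv.Perm.closure_isSwap, ← MonoidHom.range_eq_map]

end Phi

/-! ### Lifting to a multiple of the modulus -/

section Lift

variable {m n L : ℕ} [NeZero m]

/-- A permutation modulo `m` as a permutation modulo `L = n m`. -/
def lift (h : L = n * m) (σ : Perm (Fin m)) : Perm (Fin L) :=
  (finProdFinEquiv.trans (finCongr h.symm)).permCongr (Equiv.prodCongr (Equiv.refl (Fin n)) σ)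

theorem lift_val (h : L = n * m) (σ : Perm (Fin m)) (y : Fin L) :
    ((lift h σ y : Fin L) : ℕ) =
      (σ ⟨y % m, Nat.mod_lt _ (Nat.pos_of_ne_zero (NeZero.ne m))⟩ : ℕ) + m * (y / m) := by
  rfl

theorem phi_lift [NeZero L] (h : L = n * m) (σ : Perm (Fin m)) : phi L (lift h σ) = phi m σ := by
  ext x
  have hmd : m ∣ L := ⟨n, by rw [h, mul_comm]⟩
  have hm0 : (0 : ℤ) < m := Int.natCast_pos.2 (Nat.pos_of_ne_zero (NeZero.ne m))
  have e1 : (⟨(res L x : ℕ) % m, Nat.mod_lt _ (Nat.pos_of_ne_zero (NeZero.ne m))⟩ : Fin m) =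
      res m x := by
    apply Fin.ext
    have : (((res L x : ℕ) % m : ℕ) : ℤ) = ((res m x : ℕ) : ℤ) := by
      rw [Int.natCast_mod, res_cast, res_cast]
      exact Int.emod_emod_of_dvd x (Int.natCast_dvd_natCast.2 hmd)
    exact_mod_cast this
  rw [phi_apply, lift_val, e1, phi_apply]
  push_cast
  rw [res_cast]
  have e2 : (L : ℤ) * (x / L) + m * ((x % L) / m) = m * (x / m) := by
    have h3 : x = m * (n * (x / L)) + x % L := by
      conv_lhs => rw [← Int.mul_ediv_add_emod x L]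
      rw [h]
      push_cast
      ring
    conv_rhs => rw [h3]
    rw [Int.mul_add_ediv_left _ _ hm0.ne']
    rw [h]
    push_cast
    ring
  linear_combination e2

theorem sign_lift (h : L = n * m) (σ : Perm (Fin m)) :
    Perm.sign (lift h σ) = Perm.sign σ ^ n := by
  rw [lift, Equiv.Perm.sign_permCongr]
  have : Equiv.prodCongr (Equiv.refl (Fin n)) σ =
      Equiv.prodCongrRight (fun _ : Fin n => σ) := by
    ext x <;> rfl
  rw [this, Equiv.Perm.sign_prodCongrRight]
  simp

end Lift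

/-! ### Invariant relations -/

section Rel

variable {M k L : ℕ} {R : ℕ → ℕ → Prop}

/-- Invariance under all permutations of the residues modulo `M`. -/
def Inv (M : ℕ) (R : ℕ → ℕ → Prop) : Prop :=
  ∀ x y x' y', R x y → x % M ≠ y % M → x' / M = x / M → y' / M = y / M → x' % M ≠ y' % M → R x' y'

theorem Inv.ext (hM : 3 ≤ M) (hs : ∀ x y, R x y → R y x) (ht : ∀ x y z, R x y → R y z → R x z)
    (h : Inv M R) {x y x' y' : ℕ} (hxy : R x y) (hne : x % M ≠ y % M) (hx : x' / M = x / M)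
    (hy : y' / M = y / M) : R x' y' := by
  by_cases hc : x' % M = y' % M
  · obtain ⟨e, f, he, hf, hec, hfc, hef⟩ : ∃ e f : ℕ, e < M ∧ f < M ∧ e ≠ x' % M ∧ f ≠ x' % M ∧
        e ≠ f := by
      rcases Nat.lt_or_ge (x' % M) 1 with h0 | h0
      · exact ⟨1, 2, by omega, by omega, by omega, by omega, by omega⟩
      · rcases Nat.lt_or_ge (x' % M) 2 with h1 | h1
        · exact ⟨0, 2, by omega, by omega, by omega, by omega, by omega⟩
        · exact ⟨0, 1, by omega, by omega, by omega, by omega, by omega⟩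
    have hM0 : 0 < M := by omega
    have d : ∀ q e, e < M → (M * q + e) / M = q := by
      intro q e he
      rw [Nat.mul_add_div hM0, Nat.div_eq_of_lt he, add_zero]
    have r : ∀ q e, e < M → (M * q + e) % M = e := by
      intro q e he
      rw [Nat.mul_add_mod, Nat.mod_eq_of_lt he]
    have h1 : R x' (M * (y / M) + e) :=
      h x y _ _ hxy hne hx (d _ _ he) (by rw [r _ _ he]; exact hec.symm)
    have h2 : R (M * (x / M) + f) (M * (y / M) + e) :=
      h x y _ _ hxy hne (d _ _ hf) (d _ _ he) (by rw [r _ _ he, r _ _ hf]; exact hef.symm)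
    have h3 : R (M * (x / M) + f) y' :=
      h x y _ _ hxy hne (d _ _ hf) hy (by rw [r _ _ hf, ← hc]; exact hfc)
    exact ht _ _ _ h1 (ht _ _ _ (hs _ _ h2) h3)
  · exact h x y x' y' hxy hne hx hy hc

theorem succ_mod_ne (hM : 2 ≤ M) (t : ℕ) : t % M ≠ (t + 1) % M := by
  intro h
  have h1 : t + 1 ≡ t + 0 [MOD M] := h.symm
  have h2 := Nat.ModEq.add_left_cancel' t h1
  have h3 : M ∣ 1 := (Nat.modEq_zero_iff_dvd).1 h2
  have := Nat.le_of_dvd one_pos h3
  omega

theorem succ_succ_mod_ne (hM : 3 ≤ M) (t : ℕ) : t % M ≠ (t + 2) % M := by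
  intro h
  have h1 : t + 2 ≡ t + 0 [MOD M] := h.symm
  have h2 := Nat.ModEq.add_left_cancel' t h1
  have h3 : M ∣ 2 := (Nat.modEq_zero_iff_dvd).1 h2
  have := Nat.le_of_dvd two_pos h3
  omega

theorem pred_div (hk : 0 < k) (n : ℕ) (h : ¬ k ∣ n + 1) : (n + 1) / k = n / k := by
  rw [Nat.succ_div, if_neg h, add_zero]

theorem rel_total (hM : 3 ≤ M) (hk : 3 ≤ k) (hML : M ∣ L) (hkL : k ∣ L)
    (hmin : ∀ x, M ∣ x → k ∣ x → L ∣ x) (hb : ∀ x y, R x y → x < L ∧ y < L)
    (hs : ∀ x y, R x y → R y x) (ht : ∀ x y z, R x y → R y z → R x z)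
    (hIM : Inv M R) (hIk : Inv k R) {x₀ y₀ : ℕ} (hR : R x₀ y₀) (hne : x₀ ≠ y₀) {x y : ℕ}
    (hx : x < L) (hy : y < L) : R x y := by
  have IIM : ∀ {x y x' y' : ℕ}, R x y → x % M ≠ y % M → x' / M = x / M → y' / M = y / M →
    R x' y' := fun h1 h2 h3 h4 => hIM.ext hM hs ht h1 h2 h3 h4
  have IIk : ∀ {x y x' y' : ℕ}, R x y → x % k ≠ y % k → x' / k = x / k → y' / k = y / k →
    R x' y' := fun h1 h2 h3 h4 => hIk.ext hk hs ht h1 h2 h3 h4
  have hM0 : 0 < M := by omega
  have hk0 : 0 < k := by omega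
  -- a pair which differs modulo `M`
  obtain ⟨a, b, hab, hab'⟩ : ∃ a b, R a b ∧ a % M ≠ b % M := by
    by_cases hc : x₀ % M = y₀ % M
    · have hck : x₀ % k ≠ y₀ % k := by
        intro hck
        apply hne
        have h1 : (x₀ : ℤ) ≡ y₀ [ZMOD M] := (Int.natCast_modEq_iff).2 hc
        have h2 : (x₀ : ℤ) ≡ y₀ [ZMOD k] := (Int.natCast_modEq_iff).2 hck
        have h3 : M ∣ ((y₀ : ℤ) - x₀).natAbs := Int.natCast_dvd.1 h1.dvd
        have h4 : k ∣ ((y₀ : ℤ) - x₀).natAbs := Int.natCast_dvd.1 h2.dvd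
        have h5 := hmin _ h3 h4
        obtain ⟨hx0, hy0⟩ := hb _ _ hR
        rcases Nat.eq_zero_or_pos ((y₀ : ℤ) - x₀).natAbs with h6 | h6
        · omega
        · have := Nat.le_of_dvd h6 h5
          omega
      refine ⟨k * (x₀ / k), k * (x₀ / k) + 1, ?_, succ_mod_ne (by omega) _⟩
      have h1 : R (k * (x₀ / k)) y₀ := IIk hR hck (Nat.mul_div_cancel_left _ hk0) rfl
      have h2 : R (k * (x₀ / k) + 1) y₀ := IIk hR hck (by
        rw [Nat.mul_add_div hk0, Nat.div_eq_of_lt (show 1 < k by omega), add_zero]) rfl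
      exact ht _ _ _ h1 (hs _ _ h2)
    · exact ⟨x₀, y₀, hR, hc⟩
  -- all points of the layer `i` are related to `a`
  have J0 : ∀ z, z / M = a / M → R z a := by
    intro z hz
    have h1 : R z b := IIM hab hab' hz rfl
    exact ht _ _ _ h1 (hs _ _ hab)
  have up : ∀ i, (i + 1) * M < L → (∀ z, z / M = i → R z a) → ∀ z, z / M = i + 1 → R z a := by
    intro i hi hJ z hz
    have ee : (i + 1) * M = i * M + M := by ring
    obtain ⟨n, hn⟩ : ∃ n, (i + 1) * M = n + 2 := ⟨(i + 1) * M - 2, by omega⟩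
    have e1 : n / M = i := Nat.div_eq_of_lt_le (by omega) (by omega)
    have e2 : (n + 1) / M = i := Nat.div_eq_of_lt_le (by omega) (by omega)
    have e3 : (n + 2) / M = i + 1 := by
      rw [← hn, Nat.mul_div_cancel _ hM0]
    have r1 : R n (n + 1) := ht _ _ _ (hJ n e1) (hs _ _ (hJ _ e2))
    have hkn : ¬ k ∣ n + 2 := by
      intro h
      have h1 : M ∣ n + 2 := ⟨i + 1, by rw [← hn, mul_comm]⟩
      have h2 := Nat.le_of_dvd (by omega) (hmin _ h1 h)
      omega
    have r2 : R n (n + 2) := IIk r1 (succ_mod_ne (by omega) n) rfl (pred_div hk0 _ hkn)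
    have r3 : R n z := IIM r2 (succ_succ_mod_ne hM n) rfl (by rw [hz, e3])
    exact ht _ _ _ (hs _ _ r3) (hJ n e1)
  have down : ∀ i, (i + 1) * M < L → (∀ z, z / M = i + 1 → R z a) → ∀ z, z / M = i → R z a := by
    intro i hi hJ z hz
    have ee : (i + 1) * M = i * M + M := by ring
    have ee2 : (i + 1 + 1) * M = i * M + M + M := by ring
    obtain ⟨n, hn⟩ : ∃ n, (i + 1) * M = n + 1 := ⟨(i + 1) * M - 1, by omega⟩
    have e0 : n / M = i := Nat.div_eq_of_lt_le (by omega) (by omega)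
    have e1 : (n + 1) / M = i + 1 := by
      rw [← hn, Nat.mul_div_cancel _ hM0]
    have e2 : (n + 2) / M = i + 1 := Nat.div_eq_of_lt_le (by omega) (by omega)
    have r1 : R (n + 1) (n + 2) := ht _ _ _ (hJ _ e1) (hs _ _ (hJ _ e2))
    have hkn : ¬ k ∣ n + 1 := by
      intro h
      have h1 : M ∣ n + 1 := ⟨i + 1, by rw [← hn, mul_comm]⟩
      have h2 := Nat.le_of_dvd (by omega) (hmin _ h1 h)
      omega
    have r2 : R n (n + 2) := IIk r1 (succ_mod_ne (by omega) _) (pred_div hk0 _ hkn).symm rfl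
    have r3 : R z (n + 2) := IIM r2 (succ_succ_mod_ne hM n) (by rw [hz, e0]) rfl
    exact ht _ _ _ r3 (hJ _ e2)
  obtain ⟨w, hw⟩ := hML
  have ha := (hb _ _ hab).1
  have hlt : ∀ i, i + 1 < w → (i + 1) * M < L := by
    intro i hi
    rw [hw, mul_comm]
    exact Nat.mul_lt_mul_of_pos_left hi hM0
  have J : ∀ i, i < w → ∀ z, z / M = i → R z a := by
    have hdown : ∀ i, a / M ≤ i → i < w → ∀ z, z / M = i → R z a := by
      intro i hi
      induction i, hi using Nat.le_induction with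
      | base => intro _; exact J0
      | succ i hi ih => intro h1; exact up i (hlt i h1) (ih (by omega))
    have hup : ∀ j, j ≤ a / M → ∀ z, z / M = a / M - j → R z a := by
      intro j
      induction j with
      | zero => intro _; exact J0
      | succ j ih =>
        intro hj
        have e : a / M - j = a / M - (j + 1) + 1 := by omega
        have haw : a / M < w := by
          rw [Nat.div_lt_iff_lt_mul hM0, mul_comm, ← hw]
          exact ha
        refine down (a / M - (j + 1)) (hlt _ (by omega)) ?_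
        rw [← e]
        exact ih (by omega)
    intro i hi
    rcases le_total (a / M) i with h | h
    · exact hdown i h hi
    · have := hup (a / M - i) (by omega)
      rwa [show a / M - (a / M - i) = i by omega] at this
  have hxw : x / M < w := by
    rw [Nat.div_lt_iff_lt_mul hM0, mul_comm, ← hw]
    exact hx
  have hyw : y / M < w := by
    rw [Nat.div_lt_iff_lt_mul hM0, mul_comm, ← hw]
    exact hy
  exact ht _ _ _ (J _ hxw x rfl) (hs _ _ (J _ hyw y rfl))

end Rel

/-! ### Primitivity -/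

section Prim

open MulAction Pointwise

theorem exists_perm_two {α : Type*} [DecidableEq α] {a b a' b' : α} (h : a ≠ b) (h' : a' ≠ b') :
    ∃ σ : Perm α, σ a = a' ∧ σ b = b' := by
  refine ⟨swap (swap a a' b) b' * swap a a', ?_, ?_⟩
  · rw [Perm.mul_apply, swap_apply_left, swap_apply_of_ne_of_ne _ h']
    intro h1
    apply h
    have h2 := congrArg (swap a a') h1
    rwa [swap_apply_right, swap_apply_self] at h2
  · rw [Perm.mul_apply, swap_apply_left]

variable {M k n n' L : ℕ} [NeZero M] [NeZero k]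

theorem inv_of (hL : L = n * M) {K : Subgroup (Perm (Fin L))}
    (hK : ∀ σ : Perm (Fin M), lift hL σ ∈ K) {E : Fin L → Fin L → Prop}
    (hE : ∀ g ∈ K, ∀ x y, E x y → E (g x) (g y)) :
    Inv M (fun x y => ∃ (hx : x < L) (hy : y < L), E ⟨x, hx⟩ ⟨y, hy⟩) := by
  rintro x y x' y' ⟨hx, hy, h⟩ hne hx' hy' hne'
  have hM0 : 0 < M := Nat.pos_of_ne_zero (NeZero.ne M)
  obtain ⟨σ, h1, h2⟩ := exists_perm_two
    (a := (⟨x % M, Nat.mod_lt _ hM0⟩ : Fin M)) (b := ⟨y % M, Nat.mod_lt _ hM0⟩)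
    (a' := ⟨x' % M, Nat.mod_lt _ hM0⟩) (b' := ⟨y' % M, Nat.mod_lt _ hM0⟩)
    (fun e => hne (congrArg Fin.val e)) (fun e => hne' (congrArg Fin.val e))
  have e1 : ((lift hL σ ⟨x, hx⟩ : Fin L) : ℕ) = x' := by
    rw [lift_val]
    simp only
    rw [h1, ← hx']
    exact Nat.mod_add_div x' M
  have e2 : ((lift hL σ ⟨y, hy⟩ : Fin L) : ℕ) = y' := by
    rw [lift_val]
    simp only
    rw [h2, ← hy']
    exact Nat.mod_add_div y' M
  have hx'L : x' < L := by rw [← e1]; exact (lift hL σ ⟨x, hx⟩).2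
  have hy'L : y' < L := by rw [← e2]; exact (lift hL σ ⟨y, hy⟩).2
  refine ⟨hx'L, hy'L, ?_⟩
  have h3 := hE _ (hK σ) _ _ h
  have e3 : lift hL σ ⟨x, hx⟩ = ⟨x', hx'L⟩ := Fin.ext e1
  have e4 : lift hL σ ⟨y, hy⟩ = ⟨y', hy'L⟩ := Fin.ext e2
  rwa [e3, e4] at h3

theorem E_total (hM : 3 ≤ M) (hk : 3 ≤ k) (hn : L = n * M) (hn' : L = n' * k)
    (hmin : ∀ x, M ∣ x → k ∣ x → L ∣ x) {K : Subgroup (Perm (Fin L))}
    (hK : ∀ σ : Perm (Fin M), lift hn σ ∈ K) (hK' : ∀ σ : Perm (Fin k), lift hn' σ ∈ K)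
    {E : Fin L → Fin L → Prop} (hs : ∀ x y, E x y → E y x)
    (ht : ∀ x y z, E x y → E y z → E x z)
    (hE : ∀ g ∈ K, ∀ x y, E x y → E (g x) (g y)) {x₀ y₀ : Fin L} (h0 : E x₀ y₀) (hne : x₀ ≠ y₀)
    (x y : Fin L) : E x y := by
  have := rel_total (R := fun x y => ∃ (hx : x < L) (hy : y < L), E ⟨x, hx⟩ ⟨y, hy⟩) hM hk
    ⟨n, by rw [hn, mul_comm]⟩ ⟨n', by rw [hn', mul_comm]⟩ hmin
    (fun x y h => ⟨h.1, h.2.1⟩)
    (fun x y ⟨hx, hy, h⟩ => ⟨hy, hx, hs _ _ h⟩)
    (fun x y z ⟨hx, hy, h⟩ ⟨_, hz, h'⟩ => ⟨hx, hz, ht _ _ _ h h'⟩)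
    (inv_of hn hK hE) (inv_of hn' hK' hE) (x₀ := x₀) (y₀ := y₀) ⟨x₀.2, y₀.2, h0⟩
    (fun e => hne (Fin.ext e)) x.2 y.2
  exact this.2.2

theorem preprimitive (hM : 3 ≤ M) (hk : 3 ≤ k) (hn : L = n * M) (hn' : L = n' * k) (hL : 0 < L)
    (hmin : ∀ x, M ∣ x → k ∣ x → L ∣ x) {K : Subgroup (Perm (Fin L))}
    (hK : ∀ σ : Perm (Fin M), lift hn σ ∈ K) (hK' : ∀ σ : Perm (Fin k), lift hn' σ ∈ K) :
    IsPreprimitive K (Fin L) := by
  have hML : M ≤ L := Nat.le_of_dvd hL ⟨n, by rw [hn, mul_comm]⟩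
  have tot := @E_total M k n n' L _ _ hM hk hn hn' hmin K hK hK'
  have trans : ∀ x y : Fin L, ∃ g ∈ K, g x = y := by
    refine tot (E := fun x y => ∃ g ∈ K, g x = y) ?_ ?_ ?_ (x₀ := ⟨0, by omega⟩)
      (y₀ := ⟨1, by omega⟩) ?_ ?_
    · rintro x y ⟨g, hg, rfl⟩
      exact ⟨g⁻¹, K.inv_mem hg, by simp⟩
    · rintro x y z ⟨g, hg, rfl⟩ ⟨h, hh, rfl⟩
      exact ⟨h * g, K.mul_mem hh hg, rfl⟩
    · rintro g hg x y ⟨h, hh, rfl⟩
      exact ⟨g * h * g⁻¹, K.mul_mem (K.mul_mem hg hh) (K.inv_mem hg), by simp [Perm.mul_apply]⟩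
    · refine ⟨_, hK (swap ⟨0, by omega⟩ ⟨1, by omega⟩), ?_⟩
      apply Fin.ext
      rw [lift_val]
      have e : (⟨0 % M, Nat.mod_lt _ (by omega)⟩ : Fin M) = ⟨0, by omega⟩ := by
        apply Fin.ext; simp
      simp only [e, swap_apply_left]
      simp
    · intro h
      have := congrArg Fin.val h
      simp at this
  have htr : IsPretransitive K (Fin L) := by
    refine ⟨fun x y => ?_⟩
    obtain ⟨g, hg, h⟩ := trans x y
    exact ⟨⟨g, hg⟩, h⟩
  refine { htr with isTrivialBlock_of_isBlock := ?_ }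
  intro B hB
  by_cases hsub : B.Subsingleton
  · exact Or.inl hsub
  · right
    rw [Set.not_subsingleton_iff] at hsub
    obtain ⟨b₁, hb₁, b₂, hb₂, hb⟩ := hsub
    have key : ∀ (g h : K) (y : Fin L), y ∈ g • B → y ∈ h • B → g • B = h • B := by
      intro g h y h1 h2
      by_contra hc
      exact Set.disjoint_left.1 (hB hc) h1 h2
    have h1 : ∀ x y : Fin L, ∃ g : K, x ∈ g • B ∧ y ∈ g • B := by
      refine tot (E := fun x y => ∃ g : K, x ∈ g • B ∧ y ∈ g • B) ?_ ?_ ?_ (x₀ := b₁)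
        (y₀ := b₂) ?_ hb
      · rintro x y ⟨g, h1, h2⟩
        exact ⟨g, h2, h1⟩
      · rintro x y z ⟨g, h1, h2⟩ ⟨h, h3, h4⟩
        refine ⟨g, h1, ?_⟩
        rw [key g h y h2 h3]
        exact h4
      · rintro g hg x y ⟨h, h1, h2⟩
        refine ⟨⟨g, hg⟩ * h, ?_, ?_⟩
        · rw [mul_smul]
          exact Set.smul_mem_smul_set (a := (⟨g, hg⟩ : K)) h1
        · rw [mul_smul]
          exact Set.smul_mem_smul_set (a := (⟨g, hg⟩ : K)) h2
      · exact ⟨1, by rwa [one_smul], by rwa [one_smul]⟩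
    rw [Set.eq_univ_iff_forall]
    intro z
    obtain ⟨g, h2, h3⟩ := h1 b₁ z
    have h4 := key g 1 b₁ h2 (by rwa [one_smul])
    rwa [h4, one_smul] at h3

end Prim

/-! ### 3-cycles -/

theorem isThreeCycle_of_overlap {α : Type*} [DecidableEq α] [Fintype α] {f g : Perm α} {x : α}
    (hf : f x ≠ x) (hg : g x ≠ x) (h : ∀ y, f y ≠ y → g y ≠ y → y = x) :
    (f * g * f⁻¹ * g⁻¹).IsThreeCycle := by
  have f1 : g (f x) = f x := by
    by_contra hc
    exact hf (h (f x) (fun e => hf (f.injective e)) hc)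
  have f2 : f (g x) = g x := by
    by_contra hc
    exact hg (h (g x) hc (fun e => hg (g.injective e)))
  have hne : f x ≠ g x := by
    intro e
    apply hg
    apply g.injective
    rw [← e]
    exact f1
  have key : f * g = swap x (f x) * swap (f x) (g x) * (g * f) := by
    ext1 y
    simp only [Perm.mul_apply]
    by_cases h1 : y = x
    · subst h1
      rw [f2, f1, swap_apply_left, swap_apply_of_ne_of_ne hg hne.symm]
    · by_cases h2 : f y = x
      · have h3 : g y = y := by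
          by_contra hc
          exact h1 (h y (fun e => h1 (e.symm.trans h2)) hc)
        rw [h3, h2, swap_apply_right, swap_apply_right]
      · by_cases h3 : g y = x
        · have h4 : f y = y := by
            by_contra hc
            exact h1 (h y hc (fun e => h1 (e.symm.trans h3)))
          rw [h4, h3, swap_apply_of_ne_of_ne hf.symm hg.symm, swap_apply_left]
        · by_cases h4 : f y = y
          · rw [h4]
            have h5 : f (g y) = g y := by
              by_contra hc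
              have := h (g y) hc (fun e => by
                have := g.injective e
                rw [this, h4] at hc
                exact hc rfl)
              exact h3 this
            have h6 : g y ≠ g x := fun e => h1 (g.injective e)
            have h7 : g y ≠ f x := by
              intro e
              have : f (f x) ≠ f x := fun e => hf (f.injective e)
              rw [e] at h5
              exact this h5
            rw [h5, swap_apply_of_ne_of_ne h7 h6, swap_apply_of_ne_of_ne h3 h7]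
          · have h5 : g y = y := by
              by_contra hc
              exact h1 (h y h4 hc)
            have h6 : g (f y) = f y := by
              by_contra hc
              exact h2 (h (f y) (fun e => h4 (f.injective e)) hc)
            have h7 : f y ≠ f x := fun e => h1 (f.injective e)
            have h8 : f y ≠ g x := by
              intro e
              have : g (g x) ≠ g x := fun e => hg (g.injective e)
              rw [e] at h6
              exact this h6
            rw [h5, h6, swap_apply_of_ne_of_ne h7 h8, swap_apply_of_ne_of_ne h2 h7]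
  have e : f * g * f⁻¹ * g⁻¹ = swap (f x) x * swap (f x) (g x) := by
    rw [key, swap_comm x (f x)]
    group
  rw [e]
  exact Perm.isThreeCycle_swap_mul_swap_same hf hne hg.symm

/-! ### The main step -/

section Step

variable {M k n n' L : ℕ} [NeZero M] [NeZero k] [NeZero L]

theorem phi_coe (g : Perm (Fin L)) (y : Fin L) : ((g y : ℕ) : ℤ) = phi L g ((y : ℕ) : ℤ) :=
  (phi_fin g y).symm

/-- An element moves `y` iff its image in `Sym(ℤ)` does. -/
theorem ne_iff (g : Perm (Fin L)) (y : Fin L) :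
    g y ≠ y ↔ phi L g ((y : ℕ) : ℤ) ≠ ((y : ℕ) : ℤ) := by
  rw [← phi_coe]
  constructor
  · intro h h'
    exact h (Fin.ext (by exact_mod_cast h'))
  · intro h h'
    exact h (by rw [h'])

/-- Points moved by a swap of two classes. -/
theorem moved {a b : Fin M} {x : ℤ} (h : phi M (swap a b) x ≠ x) :
    res M x = a ∨ res M x = b := by
  by_contra hc
  push Not at hc
  apply h
  rw [phi_apply, swap_apply_of_ne_of_ne hc.1 hc.2]
  exact (decomp x).symm

theorem res_eq_iff {x : ℤ} {a : Fin M} : res M x = a ↔ x % M = (a : ℕ) := by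
  rw [← res_cast]
  constructor
  · rintro rfl; rfl
  · intro h; exact Fin.ext (by exact_mod_cast h)

theorem sub_dvd {x : ℤ} {a : Fin M} (h : res M x = a) : (M : ℤ) ∣ x - (a : ℕ) := by
  rw [res_eq_iff] at h
  rw [← h]
  exact Int.dvd_self_sub_emod

/-- The case `gcd(M, k) ≥ 3`. -/
theorem three_cycle_one (hM : 3 ≤ M) (hk : 3 ≤ k) (hn : L = n * M) (hn' : L = n' * k)
    (hmin : ∀ x, M ∣ x → k ∣ x → L ∣ x) {d : ℕ} (hd : 3 ≤ d) (hdM : d ∣ M) (hdk : d ∣ k)
    {K : Subgroup (Perm (Fin L))}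
    (hK : ∀ σ : Perm (Fin M), lift hn σ ∈ K) (hK' : ∀ σ : Perm (Fin k), lift hn' σ ∈ K) :
    ∃ g ∈ K, g.IsThreeCycle := by
  obtain ⟨f, hf⟩ : ∃ f, f = lift hn (swap (⟨0, by omega⟩ : Fin M) ⟨1, by omega⟩) := ⟨_, rfl⟩
  obtain ⟨g, hg⟩ : ∃ g, g = lift hn' (swap (⟨0, by omega⟩ : Fin k) ⟨2, by omega⟩) := ⟨_, rfl⟩
  have hfK : f ∈ K := by rw [hf]; exact hK _
  have hgK : g ∈ K := by rw [hg]; exact hK' _
  have hdM' : (d : ℤ) ∣ M := Int.natCast_dvd_natCast.2 hdM
  have hdk' : (d : ℤ) ∣ k := Int.natCast_dvd_natCast.2 hdk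
  refine ⟨f * g * f⁻¹ * g⁻¹, K.mul_mem (K.mul_mem (K.mul_mem hfK hgK) (K.inv_mem hfK))
    (K.inv_mem hgK), isThreeCycle_of_overlap (x := (0 : Fin L)) ?_ ?_ ?_⟩
  · rw [ne_iff, hf, phi_lift]
    have := phi_mul_add (m := M) (swap ⟨0, by omega⟩ ⟨1, by omega⟩) 0 ⟨0, by omega⟩
    rw [swap_apply_left] at this
    simp only [mul_zero, zero_add, Nat.cast_zero, Nat.cast_one] at this
    simp only [Fin.val_zero, Nat.cast_zero, this]
    exact one_ne_zero
  · rw [ne_iff, hg, phi_lift]
    have := phi_mul_add (m := k) (swap ⟨0, by omega⟩ ⟨2, by omega⟩) 0 ⟨0, by omega⟩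
    rw [swap_apply_left] at this
    simp only [mul_zero, zero_add, Nat.cast_zero, Nat.cast_ofNat] at this
    simp only [Fin.val_zero, Nat.cast_zero, this]
    exact two_ne_zero
  · intro y h1 h2
    rw [ne_iff, hf, phi_lift] at h1
    rw [ne_iff, hg, phi_lift] at h2
    have nd : ∀ e : ℤ, 0 < e → e < 3 → ¬ (d : ℤ) ∣ e := by
      intro e he0 he3 hde
      have := Int.le_of_dvd he0 hde
      omega
    rcases moved h1 with h3 | h3 <;> rcases moved h2 with h4 | h4
    · have e1 := sub_dvd h3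
      have e2 := sub_dvd h4
      simp only [Nat.cast_zero, sub_zero] at e1 e2
      have e3 := hmin y (Int.natCast_dvd_natCast.1 e1) (Int.natCast_dvd_natCast.1 e2)
      apply Fin.ext
      rcases Nat.eq_zero_or_pos (y : ℕ) with h5 | h5
      · rw [h5]; rfl
      · have := Nat.le_of_dvd h5 e3
        have := y.2
        omega
    · exfalso
      have e1 := hdM'.trans (sub_dvd h3)
      have e2 := hdk'.trans (sub_dvd h4)
      have e3 := dvd_sub e1 e2
      refine nd 2 (by norm_num) (by norm_num) ?_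
      have e4 : ((y : ℕ) : ℤ) - ((0 : ℕ) : ℤ) - (((y : ℕ) : ℤ) - ((2 : ℕ) : ℤ)) = 2 := by
        push_cast; ring
      rw [← e4]
      exact e3
    · exfalso
      have e1 := hdM'.trans (sub_dvd h3)
      have e2 := hdk'.trans (sub_dvd h4)
      have e3 := dvd_sub e2 e1
      refine nd 1 (by norm_num) (by norm_num) ?_
      have e4 : ((y : ℕ) : ℤ) - ((0 : ℕ) : ℤ) - (((y : ℕ) : ℤ) - ((1 : ℕ) : ℤ)) = 1 := by
        push_cast; ring
      rw [← e4]
      exact e3
    · exfalso
      have e1 := hdM'.trans (sub_dvd h3)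
      have e2 := hdk'.trans (sub_dvd h4)
      have e3 := dvd_sub e1 e2
      refine nd 1 (by norm_num) (by norm_num) ?_
      have e4 : ((y : ℕ) : ℤ) - ((1 : ℕ) : ℤ) - (((y : ℕ) : ℤ) - ((2 : ℕ) : ℤ)) = 1 := by
        push_cast; ring
      rw [← e4]
      exact e3

theorem phi_swap (a b : Fin M) {x : ℤ} (h : x % M = (a : ℕ)) :
    phi M (swap a b) x = x - (a : ℕ) + (b : ℕ) := by
  rw [phi_apply, res_eq_iff.2 h, swap_apply_left]
  have := decomp (m := M) x
  rw [res_cast, h] at this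
  linear_combination -this

theorem phi_swap' (a b : Fin M) {x : ℤ} (h : x % M = (b : ℕ)) :
    phi M (swap a b) x = x - (b : ℕ) + (a : ℕ) := by
  rw [swap_comm]
  exact phi_swap b a h

theorem phi_swap_ne (a b : Fin M) {x : ℤ} (h : x % M ≠ (a : ℕ)) (h' : x % M ≠ (b : ℕ)) :
    phi M (swap a b) x = x := by
  rw [phi_apply, swap_apply_of_ne_of_ne (fun e => h (res_eq_iff.1 e))
    (fun e => h' (res_eq_iff.1 e))]
  exact (decomp x).symm

/-- The residue of `x + e` for a small `e`. -/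
theorem mod_add {x : ℤ} {r : ℤ} (e : ℤ) (h : x % M = r) (h0 : 0 ≤ r + e) (h1 : r + e < M) :
    (x + e) % M = r + e := by
  rw [Int.add_emod, h]
  rw [Int.add_emod_emod, Int.emod_eq_of_lt h0 h1]

theorem mod_add' {x : ℤ} {r : ℤ} (e : ℤ) (h : x % M = r) (h0 : M ≤ r + e) (h1 : r + e < 2 * M) :
    (x + e) % M = r + e - M := by
  have hM : (0 : ℤ) < M := Int.natCast_pos.2 (Nat.pos_of_ne_zero (NeZero.ne M))
  have e1 : (x + e) % M = (x + e - M) % M := by rw [Int.sub_emod_right]
  have e2 := mod_add (M := M) (x := x) (r := r) (e - M) h (by omega) (by omega)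
  rw [e1, add_sub_assoc, e2, add_sub_assoc]

theorem mod_sub' {x : ℤ} {r : ℤ} (e : ℤ) (h : x % M = r) (h0 : r + e < 0) (h1 : -M ≤ r + e) :
    (x + e) % M = r + e + M := by
  have e1 : (x + e) % M = (x + e + M) % M := by rw [Int.add_emod_right]
  have e2 := mod_add (M := M) (x := x) (r := r) (e + M) h (by omega) (by omega)
  rw [e1, add_assoc, e2, add_assoc]

/-- The case `gcd(M, k) = 1`. -/
theorem three_cycle_two (hM : 5 ≤ M) (hk : 3 ≤ k) (hn : L = n * M) (hn' : L = n' * k)
    (hmin : ∀ x, M ∣ x → k ∣ x → L ∣ x) (hcop : M.Coprime k)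
    {K : Subgroup (Perm (Fin L))}
    (hK : ∀ σ : Perm (Fin M), lift hn σ ∈ K) (hK' : ∀ σ : Perm (Fin k), lift hn' σ ∈ K) :
    ∃ g ∈ K, g.IsThreeCycle := by
  let z : Fin M := ⟨0, by omega⟩
  let o : Fin M := ⟨1, by omega⟩
  let t : Fin M := ⟨3, by omega⟩
  let w : Fin M := ⟨M - 1, by omega⟩
  let z' : Fin k := ⟨0, by omega⟩
  let o' : Fin k := ⟨1, by omega⟩
  have hw : ((w : ℕ) : ℤ) = M - 1 := by
    simp only [w]
    omega
  obtain ⟨f, hf⟩ : ∃ f, f = lift hn (swap z o) := ⟨_, rfl⟩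
  obtain ⟨g, hg⟩ : ∃ g, g = lift hn' (swap z' o') := ⟨_, rfl⟩
  obtain ⟨h, hh⟩ : ∃ h, h = lift hn (swap w t) := ⟨_, rfl⟩
  have hfK : f ∈ K := by rw [hf]; exact hK _
  have hgK : g ∈ K := by rw [hg]; exact hK' _
  have hhK : h ∈ K := by rw [hh]; exact hK _
  have hcK : f * g * f * g ∈ K := K.mul_mem (K.mul_mem (K.mul_mem hfK hgK) hfK) hgK
  -- the maps on integers
  obtain ⟨α, hα⟩ : ∃ α, α = phi M (swap z o) := ⟨_, rfl⟩
  obtain ⟨β, hβ⟩ : ∃ β, β = phi k (swap z' o') := ⟨_, rfl⟩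
  have hfα : phi L f = α := by rw [hf, phi_lift, hα]
  have hgβ : phi L g = β := by rw [hg, phi_lift, hβ]
  have hcc : phi L (f * g * f * g) = α * β * α * β := by
    rw [map_mul, map_mul, map_mul, hfα, hgβ]
  have α0 : ∀ x : ℤ, x % M = 0 → α x = x + 1 := by
    intro x hx
    rw [hα, phi_swap z o (by simpa [z] using hx)]
    simp [z, o]
  have α1 : ∀ x : ℤ, x % M = 1 → α x = x - 1 := by
    intro x hx
    rw [hα, phi_swap' z o (by simpa [o] using hx)]
    simp [z, o]
  have αn : ∀ x : ℤ, x % M ≠ 0 → x % M ≠ 1 → α x = x := by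
    intro x hx hx'
    rw [hα, phi_swap_ne z o (by simpa [z] using hx) (by simpa [o] using hx')]
  have β0 : ∀ x : ℤ, x % k = 0 → β x = x + 1 := by
    intro x hx
    rw [hβ, phi_swap z' o' (by simpa [z'] using hx)]
    simp [z', o']
  have β1 : ∀ x : ℤ, x % k = 1 → β x = x - 1 := by
    intro x hx
    rw [hβ, phi_swap' z' o' (by simpa [o'] using hx)]
    simp [z', o']
  have βn : ∀ x : ℤ, x % k ≠ 0 → x % k ≠ 1 → β x = x := by
    intro x hx hx'
    rw [hβ, phi_swap_ne z' o' (by simpa [z'] using hx) (by simpa [o'] using hx')]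
  have ββ : ∀ x : ℤ, β (β x) = x := by
    intro x
    have : β * β = 1 := by rw [hβ, ← map_mul, swap_mul_self, map_one]
    rw [← Perm.mul_apply, this, Perm.one_apply]
  -- the commutator on the class `-1`
  have c1 : ∀ x : ℤ, x % M = M - 1 → x % k ≠ 0 → (α * β * α * β) x = x := by
    intro x hx hx'
    simp only [Perm.mul_apply]
    by_cases h1 : x % k = 1
    · have e1 : (x - 1) % M = M - 2 := by
        have := mod_add (M := M) (-1) hx (by omega) (by omega)
        rw [sub_eq_add_neg, this]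
        ring
      have e2 : (x - 1) % k = 0 := by
        have := mod_add (M := k) (-1) h1 (by omega) (by omega)
        rw [sub_eq_add_neg, this]
        ring
      rw [β1 x h1, αn (x - 1) (by rw [e1]; omega) (by rw [e1]; omega), β0 _ e2, sub_add_cancel,
        αn x (by rw [hx]; omega) (by rw [hx]; omega)]
    · rw [βn x hx' h1, αn x (by rw [hx]; omega) (by rw [hx]; omega), βn x hx' h1,
        αn x (by rw [hx]; omega) (by rw [hx]; omega)]
  have c2 : ∀ x : ℤ, x % M = M - 1 → x % k = 0 → (α * β * α * β) x = x + 1 := by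
    intro x hx hx'
    simp only [Perm.mul_apply]
    have e1 : (x + 1) % M = 0 := by
      rw [mod_add' (M := M) 1 hx (by omega) (by omega)]
      ring
    have e2 : (x + 1 + 1) % M = 1 := by
      rw [mod_add (M := M) 1 e1 (by omega) (by omega)]
      ring
    have e3 : (x + 1 + 1) % k = 2 := by
      rw [add_assoc, mod_add (M := k) (1 + 1) hx' (by omega) (by omega)]
      ring
    rw [β0 x hx', α0 _ e1, βn _ (by rw [e3]; norm_num) (by rw [e3]; norm_num), α1 _ e2,
      add_sub_cancel_right]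
  have c3 : ∀ x : ℤ, x % M = 3 → (α * β * α * β) x = x := by
    intro x hx
    simp only [Perm.mul_apply]
    have e : α (β x) = β x := by
      by_cases h0 : x % k = 0
      · have e1 : (x + 1) % M = 4 := by
          rw [mod_add (M := M) 1 hx (by omega) (by omega)]
          ring
        rw [β0 x h0, αn _ (by rw [e1]; norm_num) (by rw [e1]; norm_num)]
      · by_cases h1 : x % k = 1
        · have e1 : (x - 1) % M = 2 := by
            rw [sub_eq_add_neg, mod_add (M := M) (-1) hx (by omega) (by omega)]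
            ring
          rw [β1 x h1, αn _ (by rw [e1]; norm_num) (by rw [e1]; norm_num)]
        · rw [βn x h0 h1, αn _ (by rw [hx]; norm_num) (by rw [hx]; norm_num)]
    rw [e, ββ, αn _ (by rw [hx]; norm_num) (by rw [hx]; norm_num)]
  -- the point
  obtain ⟨u, hu1, hu2⟩ := Nat.chineseRemainder hcop (M - 1) 0
  have hL0 : 0 < L := Nat.pos_of_ne_zero (NeZero.ne L)
  have hML : M ∣ L := ⟨n, by rw [hn, mul_comm]⟩
  have hkL : k ∣ L := ⟨n', by rw [hn', mul_comm]⟩
  let x : Fin L := ⟨u % L, Nat.mod_lt _ hL0⟩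
  have hxM : (x : ℕ) % M = M - 1 := by
    simp only [x]
    rw [Nat.mod_mod_of_dvd _ hML]
    have : u % M = (M - 1) % M := hu1
    rw [this, Nat.mod_eq_of_lt (by omega)]
  have hxk : (x : ℕ) % k = 0 := by
    simp only [x]
    rw [Nat.mod_mod_of_dvd _ hkL]
    have : u % k = 0 % k := hu2
    rw [this, Nat.zero_mod]
  have hxM' : ((x : ℕ) : ℤ) % M = M - 1 := by
    rw [← Int.natCast_mod, hxM]
    omega
  have hxk' : ((x : ℕ) : ℤ) % k = 0 := by
    rw [← Int.natCast_mod, hxk]
    rfl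
  refine ⟨(f * g * f * g) * h * (f * g * f * g)⁻¹ * h⁻¹, K.mul_mem (K.mul_mem (K.mul_mem hcK hhK)
    (K.inv_mem hcK)) (K.inv_mem hhK), isThreeCycle_of_overlap (x := x) ?_ ?_ ?_⟩
  · rw [ne_iff, hcc, c2 _ hxM' hxk']
    omega
  · rw [ne_iff, hh, phi_lift, phi_swap w t (by rw [hw]; exact hxM'), hw]
    simp only [t]
    push_cast
    omega
  · intro y h1 h2
    rw [ne_iff, hcc] at h1
    rw [ne_iff, hh, phi_lift] at h2
    rcases moved h2 with h3 | h3
    · rw [res_eq_iff, hw] at h3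
      have h4 : ((y : ℕ) : ℤ) % k = 0 := by
        by_contra hc
        exact h1 (c1 _ h3 hc)
      have h5 : (y : ℕ) % M = M - 1 := by
        have : (((y : ℕ) % M : ℕ) : ℤ) = M - 1 := by rw [Int.natCast_mod]; exact h3
        omega
      have h6 : (y : ℕ) % k = 0 := by
        have : (((y : ℕ) % k : ℕ) : ℤ) = 0 := by rw [Int.natCast_mod]; exact h4
        omega
      have e1 : ((y : ℕ) : ℤ) ≡ ((x : ℕ) : ℤ) [ZMOD M] := h3.trans hxM'.symm
      have e2 : ((y : ℕ) : ℤ) ≡ ((x : ℕ) : ℤ) [ZMOD k] := h4.trans hxk'.symm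
      have e3 : M ∣ (((x : ℕ) : ℤ) - (y : ℕ)).natAbs := Int.natCast_dvd.1 e1.dvd
      have e4 : k ∣ (((x : ℕ) : ℤ) - (y : ℕ)).natAbs := Int.natCast_dvd.1 e2.dvd
      have e5 := hmin _ e3 e4
      have hx2 := x.2
      have hy2 := y.2
      apply Fin.ext
      rcases Nat.eq_zero_or_pos (((x : ℕ) : ℤ) - (y : ℕ)).natAbs with h7 | h7
      · omega
      · have := Nat.le_of_dvd h7 e5
        omega
    · exfalso
      rw [res_eq_iff] at h3
      exact h1 (c3 _ (by rw [h3]; simp [t]))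

/-- `⟨CT_M, CT_k⟩ = CT_L`. -/
theorem step (hM : 3 ≤ M) (hk : 3 ≤ k) (hn : L = n * M) (hn' : L = n' * k)
    (hmin : ∀ x, M ∣ x → k ∣ x → L ∣ x) {K : Subgroup (Perm (Fin L))}
    (hK : ∀ σ : Perm (Fin M), lift hn σ ∈ K) (hK' : ∀ σ : Perm (Fin k), lift hn' σ ∈ K)
    (h3 : ∃ g ∈ K, g.IsThreeCycle) : K = ⊤ := by
  have hL0 : 0 < L := Nat.pos_of_ne_zero (NeZero.ne L)
  have hprim := preprimitive hM hk hn hn' hL0 hmin hK hK'
  obtain ⟨g, hg, hg3⟩ := h3
  have hA := Perm.alternatingGroup_le_of_isPreprimitive_of_isThreeCycle_mem hprim hg3 hg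
  have hodd : ∃ o ∈ K, Perm.sign o = -1 := by
    rcases Nat.even_or_odd n with hne | hno
    · rcases Nat.even_or_odd n' with hne' | hno'
      · exfalso
        obtain ⟨a, ha⟩ := hne
        obtain ⟨b, hb⟩ := hne'
        have e1 : L = 2 * (a * M) := by rw [hn, ha]; ring
        have e2 : L = 2 * (b * k) := by rw [hn', hb]; ring
        have e3 : a * M = b * k := by omega
        have e4 : L ∣ a * M := hmin _ (dvd_mul_left _ _) (by rw [e3]; exact dvd_mul_left _ _)
        have := Nat.le_of_dvd (by omega) e4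
        omega
      · refine ⟨_, hK' (swap ⟨0, by omega⟩ ⟨1, by omega⟩), ?_⟩
        rw [sign_lift, Perm.sign_swap (by simp), hno'.neg_one_pow]
    · refine ⟨_, hK (swap ⟨0, by omega⟩ ⟨1, by omega⟩), ?_⟩
      rw [sign_lift, Perm.sign_swap (by simp), hno.neg_one_pow]
  obtain ⟨o, hoK, ho⟩ := hodd
  rw [eq_top_iff]
  intro σ _
  rcases Int.units_eq_one_or (Perm.sign σ) with h | h
  · exact hA (Perm.mem_alternatingGroup.2 h)
  · have h1 : σ * o ∈ K := hA (Perm.mem_alternatingGroup.2 (by rw [map_mul, h, ho]; rfl))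
    have := K.mul_mem h1 (K.inv_mem hoK)
    rwa [mul_inv_cancel_right] at this

end Step

/-! ### The theorem -/

section Main

theorem range_le {M L n : ℕ} [NeZero M] [NeZero L] (hn : L = n * M) :
    (phi M).range ≤ (phi L).range := by
  rintro _ ⟨σ, rfl⟩
  exact ⟨lift hn σ, phi_lift hn σ⟩

theorem lift_mem {M L n : ℕ} [NeZero M] [NeZero L] (hn : L = n * M) {H : Subgroup (Perm ℤ)}
    (hH : (phi M).range ≤ H) (σ : Perm (Fin M)) : lift hn σ ∈ H.comap (phi L) := by
  rw [Subgroup.mem_comap, phi_lift]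
  exact hH ⟨σ, rfl⟩

theorem range_le_of_comap {L : ℕ} [NeZero L] {H : Subgroup (Perm ℤ)}
    (h : H.comap (phi L) = ⊤) : (phi L).range ≤ H := by
  rintro _ ⟨σ, rfl⟩
  have : σ ∈ H.comap (phi L) := by rw [h]; trivial
  exact this

theorem step' {M k L : ℕ} [NeZero M] [NeZero k] [NeZero L] (hM : 3 ≤ M) (hk : 3 ≤ k)
    (hL : L = Nat.lcm M k) {H : Subgroup (Perm ℤ)} (h1 : (phi M).range ≤ H)
    (h2 : (phi k).range ≤ H) (hd : 3 ≤ Nat.gcd M k ∨ (M.Coprime k ∧ 5 ≤ M)) :
    (phi L).range ≤ H := by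
  obtain ⟨n, hn⟩ : M ∣ L := by rw [hL]; exact Nat.dvd_lcm_left _ _
  obtain ⟨n', hn'⟩ : k ∣ L := by rw [hL]; exact Nat.dvd_lcm_right _ _
  rw [mul_comm] at hn hn'
  have hmin : ∀ x, M ∣ x → k ∣ x → L ∣ x := fun x hx hx' => by
    rw [hL]; exact Nat.lcm_dvd hx hx'
  apply range_le_of_comap
  refine step hM hk hn hn' hmin (lift_mem hn h1) (lift_mem hn' h2) ?_
  rcases hd with hd | ⟨hc, h5⟩
  · exact three_cycle_one hM hk hn hn' hmin hd (Nat.gcd_dvd_left _ _) (Nat.gcd_dvd_right _ _)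
      (lift_mem hn h1) (lift_mem hn' h2)
  · exact three_cycle_two h5 hk hn hn' hmin hc (lift_mem hn h1) (lift_mem hn' h2)

theorem word : (lift (show 12 = 4 * 3 from rfl) (swap 1 2) *
    lift (show 12 = 3 * 4 from rfl) (swap 2 3)) ^ 3 = (swap 4 5 : Perm (Fin 12)) := by
  decide +kernel

theorem base {H : Subgroup (Perm ℤ)} (h1 : (phi 3).range ≤ H) (h2 : (phi 4).range ≤ H) :
    (phi 12).range ≤ H := by
  apply range_le_of_comap
  have hmin : ∀ x, 3 ∣ x → 4 ∣ x → 12 ∣ x := fun x hx hx' => by omega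
  have hn : 12 = 4 * 3 := rfl
  have hn' : 12 = 3 * 4 := rfl
  have hprim := preprimitive (M := 3) (k := 4) (L := 12) (n := 4) (n' := 3) le_rfl (by norm_num)
    hn hn' (by norm_num) hmin (lift_mem hn h1) (lift_mem hn' h2)
  refine Perm.subgroup_eq_top_of_isPreprimitive_of_isSwap_mem hprim (swap 4 5)
    ⟨4, 5, by decide, rfl⟩ ?_
  rw [← word]
  exact Subgroup.pow_mem _ (Subgroup.mul_mem _ (lift_mem hn h1 _) (lift_mem hn' h2 _)) 3

instance (k : ℕ) : NeZero (N k) := by
  refine ⟨?_⟩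
  rw [N, Ne, Finset.lcm_eq_zero_iff]
  simp

theorem N_succ {k : ℕ} (hk : 1 ≤ k) : N (k + 1) = Nat.lcm (N k) (k + 1) := by
  have h : Finset.Icc 2 (k + 1) = insert (k + 1) (Finset.Icc 2 k) := by
    ext x
    simp only [Finset.mem_Icc, Finset.mem_insert]
    omega
  rw [N, N, h, Finset.lcm_insert, Nat.lcm_comm]
  rfl

theorem dvd_N {m k : ℕ} (h2 : 2 ≤ m) (hm : m ≤ k) : m ∣ N k :=
  Finset.dvd_lcm (f := id) (Finset.mem_Icc.2 ⟨h2, hm⟩)

theorem CT_le_CTle {m k : ℕ} (h2 : 2 ≤ m) (hm : m ≤ k) : CT m ≤ CTle k := by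
  intro π hπ
  apply Subgroup.subset_closure
  rw [Set.mem_iUnion₂]
  exact ⟨m, Finset.mem_Icc.2 ⟨h2, hm⟩, hπ⟩

theorem CTle_le {k : ℕ} {H : Subgroup (Perm ℤ)} (h : ∀ m, 2 ≤ m → m ≤ k → CT m ≤ H) :
    CTle k ≤ H := by
  rw [CTle, Subgroup.closure_le]
  intro π hπ
  rw [Set.mem_iUnion₂] at hπ
  obtain ⟨m, hm, hπ⟩ := hπ
  rw [Finset.mem_Icc] at hm
  exact h m hm.1 hm.2 hπ

theorem lower (k : ℕ) (hk : 4 ≤ k) : (phi (N k)).range ≤ CTle k := by
  induction k, hk using Nat.le_induction with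
  | base =>
    have h12 : N 4 = 12 := by decide +kernel
    have h := base (H := CTle 4)
      (by rw [← CT_eq]; exact CT_le_CTle (by norm_num) (by norm_num))
      (by rw [← CT_eq]; exact CT_le_CTle (by norm_num) (by norm_num))
    exact (range_le (n := 1) (by rw [h12])).trans h
  | succ k hk ih =>
    have : NeZero (k + 1) := ⟨by omega⟩
    have h1 : (phi (N k)).range ≤ CTle (k + 1) := ih.trans
      (CTle_le fun m h2 hm => CT_le_CTle h2 (by omega))
    have h2 : (phi (k + 1)).range ≤ CTle (k + 1) := by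
      rw [← CT_eq]
      exact CT_le_CTle (by omega) le_rfl
    have h12 : 12 ≤ N k := by
      refine Nat.le_of_dvd (Nat.pos_of_ne_zero (NeZero.ne _)) ?_
      have e3 := dvd_N (m := 3) (k := k) (by norm_num) (by omega)
      have e4 := dvd_N (m := 4) (k := k) (by norm_num) (by omega)
      exact (show Nat.Coprime 3 4 by decide).mul_dvd_of_dvd_of_dvd e3 e4
    by_cases hdiv : (k + 1) ∣ N k
    · have e : N (k + 1) = N k := by
        rw [N_succ (by omega), Nat.lcm_eq_left hdiv]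
      exact (range_le (n := 1) (by rw [e, one_mul])).trans h1
    · refine step' (M := N k) (k := k + 1) (by omega) (by omega) (N_succ (by omega)) h1 h2 ?_
      by_cases hg : 3 ≤ Nat.gcd (N k) (k + 1)
      · exact Or.inl hg
      · right
        refine ⟨?_, by omega⟩
        have hg0 : 0 < Nat.gcd (N k) (k + 1) := Nat.gcd_pos_of_pos_right _ (by omega)
        have hg2 : Nat.gcd (N k) (k + 1) ≠ 2 := by
          intro h
          have h3 : 2 ∣ k + 1 := by rw [← h]; exact Nat.gcd_dvd_right _ _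
          obtain ⟨t, ht⟩ := h3
          have h4 : t ∣ N k := dvd_N (by omega) (by omega)
          have h5 : t ∣ Nat.gcd (N k) (k + 1) := Nat.dvd_gcd h4 ⟨2, by omega⟩
          rw [h] at h5
          have := Nat.le_of_dvd two_pos h5
          omega
        have : Nat.gcd (N k) (k + 1) = 1 := by omega
        exact this

theorem upper (k : ℕ) : CTle k ≤ (phi (N k)).range := by
  refine CTle_le fun m h2 hm => ?_
  have : NeZero m := ⟨by omega⟩
  obtain ⟨n, hn⟩ := dvd_N h2 hm
  rw [CT_eq]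
  exact range_le (n := n) (by rw [hn, mul_comm])

/-- For every `k > 3` the group `CT_(k)` is isomorphic to the symmetric group of degree
`N = lcm(2, …, k)`; in fact it is equal to `CT_N`. -/
theorem result (k : ℕ) (hk : 3 < k) :
    Nonempty (CTle k ≃* Perm (Fin (N k))) ∧ CTle k = CT (N k) := by
  have h : CTle k = (phi (N k)).range := le_antisymm (upper k) (lower k hk)
  refine ⟨?_, by rw [h, CT_eq]⟩
  rw [h]
  exact ⟨(MonoidHom.ofInjective phi_injective).symm⟩

end Main

end Pool.Agent.Results.MP_8fd2f5_al.SmallModuli
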